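import Pool.Agent.MWS.StmtsA

set_option autoImplicit false

/-!
# Squad MWS, row NDN
-/

namespace Pool.Agent.MWS.H23

open Pool.Agent.Helper14_MV Pool.Agent.Helper2_MV Pool.Agent.MVO Pool.Agent.MWL

theorem ndn (hNDF : MWL.NdfStmt) (hCAP : CapStmt) : NdnStmt := by
  intro β θ hA hle hN
  refine hNDF θ hN ?_
  intro j hj h
  have h1 := hCAP β θ hA hle hN _ _ h 0
  rw [List.count_replicate_self] at h1
  have h2 : List.count 0 [0] = 1 := by simp
  rw [h2] at h1
  omega

end Pool.Agent.MWS.H23
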